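import Pool.Agent.X268.SC.Six

namespace Pool.Agent.X268.SC

/-- `Tower l C`: the rational number `C` is computed from the list `l` of pairs `(m, e)` of integers
by `-m C = e - m / (m + 1) C'`, where `C'` is computed from the rest of the list; the empty list
gives `0`.  In the application `C = c₁ c_{r-1}` for a smooth projective variety of dimension `r`,
`e` is the topological Euler characteristic of a smooth divisor `D` in `|m K|`, the number `C'`
belongs to `D`, and the relation is the adjunction formula; the list ends with a variety with
torsion canonical class.  The first `m` is negative if the anticanonical class is semiample. -/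
inductive Tower : List (ℤ × ℤ) → ℚ → Prop
  | nil : Tower [] 0
  | cons (m e : ℤ) (l : List (ℤ × ℤ)) (C C' : ℚ) (hm : m ≠ 0) (hm' : m + 1 ≠ 0)
      (h : Tower l C') (hC : -(m : ℚ) * C = e - m / (m + 1) * C') : Tower ((m, e) :: l) C

theorem Tower.unique {l : List (ℤ × ℤ)} {C D : ℚ} (hC : Tower l C) (hD : Tower l D) : C = D := by
  induction hC generalizing D with
  | nil =>
    cases hD
    rfl
  | cons m e l C C' hm hm' h hC ih =>
    cases hD with
    | cons _ _ _ _ D' _ _ h2 hD =>
      have e1 := ih h2
      subst e1
      have hm0 : (m : ℚ) ≠ 0 := by exact_mod_cast hm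
      have : -(m : ℚ) * C = -(m : ℚ) * D := by rw [hC, hD]
      exact mul_left_cancel₀ (neg_ne_zero.mpr hm0) this

end Pool.Agent.X268.SC
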