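import Pool.Agent.X268.SC.Kol

open Finset

namespace Pool.Agent.X268.SC

open Pool.Agent.W539.DI

variable {n : ℕ}

/-- Reduction to the fundamental domain, with a condition on `|p - q|`. -/
theorem reduce (p q : ℤ) : (∀ Z : KRing n, Z.h p q = 0) ∨
    ∃ p' q' : ℤ, 0 ≤ q' ∧ q' ≤ p' ∧ p' + q' ≤ n ∧ (p' - q' = p - q ∨ p' - q' = q - p) ∧
      ∀ Z : KRing n, Z.h p q = Z.h p' q' := by
  by_cases hout : p < 0 ∨ q < 0 ∨ (n : ℤ) < p ∨ (n : ℤ) < q
  · exact Or.inl fun Z => Z.h_zero hout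
  right
  push Not at hout
  obtain ⟨hp, hq, hp', hq'⟩ := hout
  have h1 : ∀ p q : ℤ, 0 ≤ p → 0 ≤ q → p + q ≤ n → ∃ p' q' : ℤ, 0 ≤ q' ∧ q' ≤ p' ∧
      p' + q' ≤ n ∧ (p' - q' = p - q ∨ p' - q' = q - p) ∧ ∀ Z : KRing n, Z.h p q = Z.h p' q' := by
    intro p q hp hq hpq
    rcases le_total q p with h2 | h2
    · exact ⟨p, q, hq, h2, hpq, Or.inl rfl, fun Z => rfl⟩
    · exact ⟨q, p, hp, h2, by omega, Or.inr rfl, fun Z => Z.h_swap p q⟩
  by_cases hs : p + q ≤ n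
  · exact h1 p q hp hq hs
  · obtain ⟨k, hk⟩ := Int.eq_ofNat_of_zero_le (show 0 ≤ p + q - n by omega)
    have e : ∀ Z : KRing n, Z.h p q = Z.h (p - k) (q - k) := fun Z => by
      rw [Z.h_symm (p := p - k) (q := q - k) k (by omega)]
      congr 1 <;> ring
    obtain ⟨p', q', h2, h3, h4, h5, h6⟩ := h1 (p - k) (q - k) (by omega) (by omega) (by omega)
    exact ⟨p', q', h2, h3, h4, by omega, fun Z => (e Z).trans (h6 Z)⟩

/-- Symmetry of the Hodge numbers, for numerals. -/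
theorem hs (Z : KRing n) (p q p' q' : ℤ) (k : ℕ) (h : p + q + k = n) (hp : p' = p + k)
    (hq : q' = q + k) : Z.h p' q' = Z.h p q := by
  rw [hp, hq]
  exact (Z.h_symm k h).symm

/-! ### Fivefolds -/

section five

variable {X Y : KRing 5}

theorem five_rel (Φ : FM X Y) (h0 : ∀ q : ℤ, X.h 0 q = Y.h 0 q) :
    X.h 1 0 = Y.h 1 0 ∧ X.h 2 0 = Y.h 2 0 ∧ X.h 3 0 = Y.h 3 0 ∧ X.h 4 0 = Y.h 4 0 ∧
    X.h 5 0 = Y.h 5 0 ∧ X.h 2 1 = Y.h 2 1 ∧ X.h 3 1 = Y.h 3 1 ∧ X.h 4 1 = Y.h 4 1 ∧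
    X.h 3 2 = Y.h 3 2 ∧ X.h 1 1 + X.h 2 2 = Y.h 1 1 + Y.h 2 2 := by
  have g : ∀ p : ℤ, X.h p 0 = Y.h p 0 := fun p => by rw [X.h_swap, Y.h_swap]; exact h0 p
  obtain ⟨-, b2⟩ := Φ.hodge_sums 4 1 rfl
  obtain ⟨a1, a2⟩ := Φ.hodge_sums 3 2 rfl
  rw [X.sum_first _ _ (by norm_num) (by norm_num), Y.sum_first _ _ (by norm_num) (by norm_num)]
    at a1 a2 b2
  norm_num at a1 a2 b2
  have b3 : ∀ Z : KRing 5, Z.h 2 (-1) = 0 := fun Z => Z.h_neg (by norm_num)
  rw [b3, b3] at b2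
  have t2 := Φ.total_all 2 0 {0, 1, 2, 3} (by
    intro k hk
    simp only [Finset.mem_insert, Finset.mem_singleton] at hk
    push_cast
    omega)
  have t0 := Φ.total_all 0 0 {0, 1, 2, 3, 4, 5} (by
    intro k hk
    simp only [Finset.mem_insert, Finset.mem_singleton] at hk
    push_cast
    omega)
  rw [Finset.sum_insert (by decide), Finset.sum_insert (by decide), Finset.sum_insert (by decide),
    Finset.sum_singleton, Finset.sum_insert (by decide), Finset.sum_insert (by decide),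
    Finset.sum_insert (by decide), Finset.sum_singleton] at t2
  rw [Finset.sum_insert (by decide), Finset.sum_insert (by decide), Finset.sum_insert (by decide),
    Finset.sum_insert (by decide), Finset.sum_insert (by decide), Finset.sum_singleton,
    Finset.sum_insert (by decide), Finset.sum_insert (by decide), Finset.sum_insert (by decide),
    Finset.sum_insert (by decide), Finset.sum_insert (by decide), Finset.sum_singleton] at t0
  norm_num at t2 t0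
  have s42 : ∀ Z : KRing 5, Z.h 4 2 = Z.h 3 1 := fun Z =>
    hs Z 3 1 4 2 1 (by norm_num) (by norm_num) (by norm_num)
  have s53 : ∀ Z : KRing 5, Z.h 5 3 = Z.h 2 0 := fun Z =>
    hs Z 2 0 5 3 3 (by norm_num) (by norm_num) (by norm_num)
  have s33 : ∀ Z : KRing 5, Z.h 3 3 = Z.h 2 2 := fun Z =>
    hs Z 2 2 3 3 1 (by norm_num) (by norm_num) (by norm_num)
  have s44 : ∀ Z : KRing 5, Z.h 4 4 = Z.h 1 1 := fun Z =>
    hs Z 1 1 4 4 3 (by norm_num) (by norm_num) (by norm_num)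
  have s55 : ∀ Z : KRing 5, Z.h 5 5 = Z.h 0 0 := fun Z =>
    hs Z 0 0 5 5 5 (by norm_num) (by norm_num) (by norm_num)
  rw [s42, s42, s53, s53] at t2
  rw [s33, s33, s44, s44, s55, s55, X.h00, Y.h00] at t0
  have g1 := g 1
  have g2 := g 2
  refine ⟨g 1, g 2, g 3, g 4, g 5, a1, ?_, ?_, ?_, ?_⟩ <;> omega

theorem five_off (Φ : FM X Y) (h0 : ∀ q : ℤ, X.h 0 q = Y.h 0 q) (p q : ℤ) (hpq : p ≠ q) :
    X.h p q = Y.h p q := by
  obtain ⟨g1, g2, g3, g4, g5, g21, g31, g41, g32, -⟩ := five_rel Φ h0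
  rcases reduce (n := 5) p q with h | ⟨p', q', h1, h2, h3, h4, h5⟩
  · rw [h X, h Y]
  rw [h5 X, h5 Y]
  have hne : p' ≠ q' := by omega
  push_cast at h3
  have hq2 : q' ≤ 2 := by omega
  have hp5 : p' ≤ 5 := by omega
  have hp0 : 0 ≤ p' := by omega
  clear h5 h4
  interval_cases q' <;> interval_cases p' <;> first | assumption | omega

theorem five_diag (Φ : FM X Y) (h0 : ∀ q : ℤ, X.h 0 q = Y.h 0 q) (C D : ℤ)
    (hX : LibgoberWood X C) (hY : LibgoberWood Y D) :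
    24 * ((X.h 1 1 : ℤ) - Y.h 1 1) = C - D := by
  have key : ∀ w : ℤ → ℤ, (∑ p ∈ range (5 + 1), ∑ q ∈ range (5 + 1),
      (-1) ^ (p + q) * w p * (X.h p q : ℤ)) - (∑ p ∈ range (5 + 1), ∑ q ∈ range (5 + 1),
      (-1) ^ (p + q) * w p * (Y.h p q : ℤ)) =
      ∑ p ∈ range (5 + 1), w p * ((X.h p p : ℤ) - Y.h p p) := by
    intro w
    rw [← sum_sub_distrib]
    refine sum_congr rfl fun p hp => ?_
    rw [← sum_sub_distrib, sum_eq_single p]
    · rw [← mul_sub, show p + p = 2 * p by ring, pow_mul]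
      norm_num
    · intro q _ hq
      rw [five_off Φ h0 p q (by exact_mod_cast hq.symm), sub_self]
    · intro h
      exact absurd hp h
  have k1 := key fun p => (2 * p - (5 : ℕ)) ^ 2
  have k2 := key fun _ => 1
  obtain ⟨-, -, -, -, -, -, -, -, -, g⟩ := five_rel Φ h0
  have s33 : ∀ Z : KRing 5, Z.h 3 3 = Z.h 2 2 := fun Z =>
    hs Z 2 2 3 3 1 (by norm_num) (by norm_num) (by norm_num)
  have s44 : ∀ Z : KRing 5, Z.h 4 4 = Z.h 1 1 := fun Z =>
    hs Z 1 1 4 4 3 (by norm_num) (by norm_num) (by norm_num)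
  have s55 : ∀ Z : KRing 5, Z.h 5 5 = Z.h 0 0 := fun Z =>
    hs Z 0 0 5 5 5 (by norm_num) (by norm_num) (by norm_num)
  simp only [mul_one] at k2
  have e1 : moment X - moment Y = _ := k1
  have e2 : euler X - euler Y = _ := k2
  simp only [sum_range_succ, sum_range_zero, zero_add] at e1 e2
  push_cast at e1 e2
  norm_num at e1 e2
  simp only [s33, s44, s55, X.h00, Y.h00] at e1 e2
  unfold LibgoberWood at hX hY
  push_cast at hX hY
  omega

theorem five_all (Φ : FM X Y) (h0 : ∀ q : ℤ, X.h 0 q = Y.h 0 q) (C : ℤ)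
    (hX : LibgoberWood X C) (hY : LibgoberWood Y C) (p q : ℤ) : X.h p q = Y.h p q := by
  have h := five_diag Φ h0 C C hX hY
  obtain ⟨-, -, -, -, -, -, -, -, -, g⟩ := five_rel Φ h0
  have h11 : X.h 1 1 = Y.h 1 1 := by omega
  have h22 : X.h 2 2 = Y.h 2 2 := by omega
  by_cases hpq : p = q
  · subst hpq
    rcases reduce (n := 5) p p with h | ⟨p', q', h1, h2, h3, h4, h5⟩
    · rw [h X, h Y]
    rw [h5 X, h5 Y]
    have hne : p' = q' := by omega
    subst hne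
    push_cast at h3
    have hp5 : p' ≤ 2 := by omega
    clear h5 h4
    interval_cases p'
    · rw [X.h00, Y.h00]
    · exact h11
    · exact h22
  · exact five_off Φ h0 p q hpq

end five

end Pool.Agent.X268.SC
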