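import Pool.Agent.X268.HS.Mot
import Pool.Agent.W539.DI.Cor

set_option linter.unusedSectionVars false

open Finset CategoryTheory

namespace Pool.Agent.X268.SC

open Pool.Agent.W539.DI Pool.Agent.X268.HS

/-- Numbers `num i j M` attached to the modules `M` over `A`, which depend only on the isomorphism
class of `M`. -/
structure Numbers (A : Type) [Ring A] where
  num : ℕ → ℕ → ModuleCat.{0} A → ℕ
  iso : ∀ (i j : ℕ) (M N : ModuleCat.{0} A), Nonempty (M ≅ N) → num i j M = num i j N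

variable {A : Type} [Ring A] [Algebra ℚ A] [StarRing A] {c c' : ℕ}

/-- The submodule `deg i`, as an object of the category of the modules over `A`. -/
def degMod (V : LData A) (i : ℤ) : ModuleCat.{0} A := ModuleCat.of A (V.deg i)

/-- The piece of degree `d + j`, where `d` is the common value of `2 c` or `2 c + 1` and of
`2 c' + 1` or `2 c' + 2`. -/
noncomputable def piece (V : LefMod A (2 * c)) (V' : LefMod A (2 * c' + 1)) (j : ℕ) :
    ModuleCat.{0} A :=
  if Even j then degMod V.toLData (c + j / 2) else degMod V'.toLData (c' + (j + 1) / 2)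

/-- `h^{n,q}` is the sum over `j` of the numbers of index `(q - j, j)` of the pieces of degree
`d + j`. -/
def DirectImages (κ : Numbers A) (V : LefMod A (2 * c)) (V' : LefMod A (2 * c' + 1)) {n : ℕ}
    (X : KRing n) : Prop :=
  ∀ q : ℕ, X.h n q = ∑ j ∈ range (q + 1), κ.num (q - j) j (piece V V' j)

theorem deg_even {V W : LefMod A (2 * c)} (pos : JointPos V W) (Φ : Isom V W)
    (low : LowIso V W (c - 2)) (i : ℤ) : Nonempty (V.deg i ≃ₗ[A] W.deg i) := by
  refine iso_of_vv ?_
  intro T _ _ _ _ _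
  refine vv_even T pos Φ rfl (fun i hi => ?_) i
  rcases lt_or_ge i 0 with h0 | h0
  · rw [vv_neg T V h0, vv_neg T W h0]
  · exact vv_of_iso (low i h0 (by omega)) T

theorem deg_odd {V W : LefMod A (2 * c' + 1)} (φ : V.Iso W.toLData)
    (low : LowIso V W (c' - 1)) (i : ℤ) : Nonempty (V.deg i ≃ₗ[A] W.deg i) := by
  refine iso_of_vv ?_
  intro T _ _ _ _ _
  refine vv_odd T φ rfl (fun i hi => ?_) i
  rcases lt_or_ge i 0 with h0 | h0
  · rw [vv_neg T V h0, vv_neg T W h0]
  · exact vv_of_iso (low i h0 (by omega)) T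

theorem piece_iso {V W : LefMod A (2 * c)} {V' W' : LefMod A (2 * c' + 1)} (pos : JointPos V W)
    (Φ : Isom V W) (φ' : V'.Iso W'.toLData) (low : LowIso V W (c - 2))
    (low' : LowIso V' W' (c' - 1)) (j : ℕ) : Nonempty (piece V V' j ≅ piece W W' j) := by
  by_cases h : Even j
  · obtain ⟨e⟩ := deg_even pos Φ low (c + j / 2)
    have e1 : piece V V' j = degMod V.toLData (c + j / 2) := if_pos h
    have e2 : piece W W' j = degMod W.toLData (c + j / 2) := if_pos h
    rw [e1, e2]
    exact ⟨e.toModuleIso⟩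
  · obtain ⟨e⟩ := deg_odd φ' low' (c' + (j + 1) / 2)
    have e1 : piece V V' j = degMod V'.toLData (c' + (j + 1) / 2) := if_neg h
    have e2 : piece W W' j = degMod W'.toLData (c' + (j + 1) / 2) := if_neg h
    rw [e1, e2]
    exact ⟨e.toModuleIso⟩

/-- The numbers `h^{0,q}` agree. -/
theorem h_zero_q {V W : LefMod A (2 * c)} {V' W' : LefMod A (2 * c' + 1)} (pos : JointPos V W)
    (Φ : Isom V W) (φ' : V'.Iso W'.toLData) (low : LowIso V W (c - 2))
    (low' : LowIso V' W' (c' - 1)) (κ : Numbers A) {n : ℕ} {X Y : KRing n}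
    (hX : DirectImages κ V V' X) (hY : DirectImages κ W W' Y) (q : ℤ) : X.h 0 q = Y.h 0 q := by
  have key : ∀ q : ℕ, X.h n q = Y.h n q := fun q => by
    rw [hX q, hY q]
    exact sum_congr rfl fun j _ => κ.iso _ _ _ _ (piece_iso pos Φ φ' low low' j)
  by_cases hq : 0 ≤ q ∧ q ≤ n
  · obtain ⟨hq0, hqn⟩ := hq
    obtain ⟨a, rfl⟩ := Int.eq_ofNat_of_zero_le hq0
    obtain ⟨k, hk⟩ := Nat.exists_eq_add_of_le (show a ≤ n by exact_mod_cast hqn)
    have e : ∀ Z : KRing n, Z.h 0 (a : ℤ) = Z.h n k := fun Z => by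
      rw [Z.h_symm (p := 0) (q := (a : ℤ)) k (by rw [hk]; push_cast; ring), Z.h_swap]
      congr 1
      · rw [hk]; push_cast; ring
      · ring
    rw [e X, e Y]
    exact key k
  · rw [X.h_zero (by omega), Y.h_zero (by omega)]

/-! ### The formula of Libgober and Wood -/

variable {n : ℕ}

/-- The Euler characteristic. -/
noncomputable def euler (X : KRing n) : ℤ :=
  ∑ p ∈ range (n + 1), ∑ q ∈ range (n + 1), (-1) ^ (p + q) * (X.h p q : ℤ)

/-- The sum `∑ (-1)^{p+q} (2 p - n)^2 h^{p,q}`. -/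
noncomputable def moment (X : KRing n) : ℤ :=
  ∑ p ∈ range (n + 1), ∑ q ∈ range (n + 1), (-1) ^ (p + q) * (2 * (p : ℤ) - n) ^ 2 * (X.h p q : ℤ)

/-- The formula `∑ (-1)^{p+q} (p - n/2)^2 h^{p,q} = (n / 12) c_n + (1 / 6) c_1 c_{n-1}` of Libgober
and Wood, where `c_n` is the Euler characteristic and `C` is the Chern number `c_1 c_{n-1}`. -/
def LibgoberWood (X : KRing n) (C : ℤ) : Prop := 3 * moment X = n * euler X + 2 * C

/-- The Hodge numbers with `q ≤ p` and `p + q ≤ n` suffice. -/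
theorem agree {X Y : KRing n}
    (h : ∀ p q : ℤ, 0 ≤ q → q ≤ p → p + q ≤ n → X.h p q = Y.h p q) (p q : ℤ) :
    X.h p q = Y.h p q := by
  have h1 : ∀ p q : ℤ, 0 ≤ p → 0 ≤ q → p + q ≤ n → X.h p q = Y.h p q := by
    intro p q hp hq hpq
    rcases le_total q p with h2 | h2
    · exact h p q hq h2 hpq
    · rw [X.h_swap, Y.h_swap]
      exact h q p hp h2 (by omega)
  by_cases hout : p < 0 ∨ q < 0 ∨ (n : ℤ) < p ∨ (n : ℤ) < q
  · rw [X.h_zero hout, Y.h_zero hout]
  · push Not at hout
    obtain ⟨hp, hq, hp', hq'⟩ := hout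
    by_cases hs : p + q ≤ n
    · exact h1 p q hp hq hs
    · obtain ⟨k, hk⟩ := Int.eq_ofNat_of_zero_le (show 0 ≤ p + q - n by omega)
      have e : ∀ Z : KRing n, Z.h (p - k) (q - k) = Z.h p q := fun Z => by
        rw [Z.h_symm (p := p - k) (q := q - k) k (by omega)]
        congr 1 <;> ring
      rw [← e X, ← e Y]
      exact h1 _ _ (by omega) (by omega) (by omega)

end Pool.Agent.X268.SC
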