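import Pool.Agent.X268.SC.Dim

open Finset

namespace Pool.Agent.X268.SC

open Pool.Agent.W539.DI

variable {X Y : KRing 6}

theorem six_rel (Φ : FM X Y) (h0 : ∀ q : ℤ, X.h 0 q = Y.h 0 q) :
    X.h 1 0 = Y.h 1 0 ∧ X.h 2 0 = Y.h 2 0 ∧ X.h 3 0 = Y.h 3 0 ∧ X.h 4 0 = Y.h 4 0 ∧
    X.h 5 0 = Y.h 5 0 ∧ X.h 6 0 = Y.h 6 0 ∧ X.h 3 1 = Y.h 3 1 ∧ X.h 4 1 = Y.h 4 1 ∧
    X.h 5 1 = Y.h 5 1 ∧ X.h 2 2 = Y.h 2 2 ∧ X.h 4 2 = Y.h 4 2 ∧
    X.h 2 1 + X.h 3 2 = Y.h 2 1 + Y.h 3 2 ∧ X.h 3 3 + 2 * X.h 1 1 = Y.h 3 3 + 2 * Y.h 1 1 := by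
  have g : ∀ p : ℤ, X.h p 0 = Y.h p 0 := fun p => by rw [X.h_swap, Y.h_swap]; exact h0 p
  obtain ⟨-, b2⟩ := Φ.hodge_sums 5 1 rfl
  obtain ⟨a1, a2⟩ := Φ.hodge_sums 4 2 rfl
  obtain ⟨c1, c2⟩ := Φ.hodge_sums 3 3 rfl
  rw [X.sum_first _ _ (by norm_num) (by norm_num), Y.sum_first _ _ (by norm_num) (by norm_num)]
    at a1 a2 b2 c2
  norm_num at a1 a2 b2 c2
  have b3 : ∀ Z : KRing 6, Z.h 3 (-1) = 0 := fun Z => Z.h_neg (by norm_num)
  rw [b3, b3] at b2
  have c3 : ∀ Z : KRing 6, ∑ i ∈ range 6, Z.h (((3 : ℕ) : ℤ) - 1 - 2 * i)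
      (((3 : ℕ) : ℤ) - 1 - 2 * i) = Z.h 2 2 + Z.h 0 0 := by
    intro Z
    have e : ∀ i ∈ range 6, i ∉ ({0, 1} : Finset ℕ) → Z.h (((3 : ℕ) : ℤ) - 1 - 2 * i)
        (((3 : ℕ) : ℤ) - 1 - 2 * i) = 0 := by
      intro i _ hi
      simp only [Finset.mem_insert, Finset.mem_singleton] at hi
      exact Z.h_neg (by push_cast; omega)
    rw [← sum_subset (s₁ := {0, 1}) (by decide) e, sum_insert (by decide), sum_singleton]
    norm_num
  rw [c3, c3, X.h00, Y.h00] at c1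
  have t1 := Φ.total_all 1 0 {0, 1, 2, 3, 4, 5} (by
    intro k hk
    simp only [Finset.mem_insert, Finset.mem_singleton] at hk
    push_cast
    omega)
  have t3 := Φ.total_all 3 0 {0, 1, 2, 3} (by
    intro k hk
    simp only [Finset.mem_insert, Finset.mem_singleton] at hk
    push_cast
    omega)
  rw [Finset.sum_insert (by decide), Finset.sum_insert (by decide), Finset.sum_insert (by decide),
    Finset.sum_singleton, Finset.sum_insert (by decide), Finset.sum_insert (by decide),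
    Finset.sum_insert (by decide), Finset.sum_singleton] at t3
  rw [Finset.sum_insert (by decide), Finset.sum_insert (by decide), Finset.sum_insert (by decide),
    Finset.sum_insert (by decide), Finset.sum_insert (by decide), Finset.sum_singleton,
    Finset.sum_insert (by decide), Finset.sum_insert (by decide), Finset.sum_insert (by decide),
    Finset.sum_insert (by decide), Finset.sum_insert (by decide), Finset.sum_singleton] at t1
  norm_num at t1 t3
  have s43 : ∀ Z : KRing 6, Z.h 4 3 = Z.h 3 2 := fun Z =>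
    hs Z 3 2 4 3 1 (by norm_num) (by norm_num) (by norm_num)
  have s54 : ∀ Z : KRing 6, Z.h 5 4 = Z.h 2 1 := fun Z =>
    hs Z 2 1 5 4 3 (by norm_num) (by norm_num) (by norm_num)
  have s65 : ∀ Z : KRing 6, Z.h 6 5 = Z.h 1 0 := fun Z =>
    hs Z 1 0 6 5 5 (by norm_num) (by norm_num) (by norm_num)
  have s52 : ∀ Z : KRing 6, Z.h 5 2 = Z.h 4 1 := fun Z =>
    hs Z 4 1 5 2 1 (by norm_num) (by norm_num) (by norm_num)
  have s63 : ∀ Z : KRing 6, Z.h 6 3 = Z.h 3 0 := fun Z =>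
    hs Z 3 0 6 3 3 (by norm_num) (by norm_num) (by norm_num)
  rw [s43, s43, s54, s54, s65, s65] at t1
  rw [s52, s52, s63, s63] at t3
  have g1 := g 1
  have g2 := g 2
  have g3 := g 3
  refine ⟨g 1, g 2, g 3, g 4, g 5, g 6, a1, ?_, ?_, ?_, ?_, ?_, ?_⟩ <;> omega

theorem six_off (Φ : FM X Y) (h0 : ∀ q : ℤ, X.h 0 q = Y.h 0 q) (p q : ℤ)
    (hpq : p + 2 ≤ q ∨ q + 2 ≤ p) : X.h p q = Y.h p q := by
  obtain ⟨g1, g2, g3, g4, g5, g6, g31, g41, g51, g22, g42, -, -⟩ := six_rel Φ h0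
  rcases reduce (n := 6) p q with h | ⟨p', q', h1, h2, h3, h4, h5⟩
  · rw [h X, h Y]
  rw [h5 X, h5 Y]
  have hne : q' + 2 ≤ p' := by omega
  push_cast at h3
  have hq2 : q' ≤ 2 := by omega
  have hp6 : p' ≤ 6 := by omega
  have hp0 : 0 ≤ p' := by omega
  clear h5 h4
  interval_cases q' <;> interval_cases p' <;> first | assumption | omega

theorem six_diag (Φ : FM X Y) (h0 : ∀ q : ℤ, X.h 0 q = Y.h 0 q) (C D : ℤ)
    (hX : LibgoberWood X C) (hY : LibgoberWood Y D) :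
    48 * (((X.h 1 1 : ℤ) - Y.h 1 1) - ((X.h 2 1 : ℤ) - Y.h 2 1)) = C - D := by
  have key : ∀ w : ℤ → ℤ, (∑ p ∈ range (6 + 1), ∑ q ∈ range (6 + 1),
      (-1) ^ (p + q) * w p * (X.h p q : ℤ)) - (∑ p ∈ range (6 + 1), ∑ q ∈ range (6 + 1),
      (-1) ^ (p + q) * w p * (Y.h p q : ℤ)) =
      ∑ p ∈ range (6 + 1), (w p * ((X.h p p : ℤ) - Y.h p p) -
        w p * ((X.h p (p + 1) : ℤ) - Y.h p (p + 1)) -
        w p * ((X.h p (p - 1) : ℤ) - Y.h p (p - 1))) := by
    intro w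
    rw [← sum_sub_distrib]
    refine sum_congr rfl fun p hp => ?_
    rw [← sum_sub_distrib]
    have e : ∀ q ∈ range (6 + 1), (-1) ^ (p + q) * w p * (X.h p q : ℤ) -
        (-1) ^ (p + q) * w p * (Y.h p q : ℤ) =
        (if q = p then w p * ((X.h p p : ℤ) - Y.h p p) else 0) -
        (if q = p + 1 then w p * ((X.h p (p + 1) : ℤ) - Y.h p (p + 1)) else 0) -
        (if q + 1 = p then w p * ((X.h p (p - 1) : ℤ) - Y.h p (p - 1)) else 0) := by
      intro q _
      rcases lt_trichotomy q p with h | h | h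
      · by_cases h1 : q + 1 = p
        · subst h1
          rw [if_neg (by omega), if_neg (by omega), if_pos rfl,
            show q + 1 + q = 2 * q + 1 by ring, pow_succ, pow_mul]
          push_cast
          rw [show (q : ℤ) + 1 - 1 = q by ring]
          norm_num
          ring
        · rw [if_neg (by omega), if_neg (by omega), if_neg h1,
            six_off Φ h0 p q (Or.inr (by omega))]
          ring
      · subst h
        rw [if_pos rfl, if_neg (by omega), if_neg (by omega), show q + q = 2 * q by ring, pow_mul]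
        norm_num
        ring
      · by_cases h1 : q = p + 1
        · subst h1
          rw [if_neg (by omega), if_pos rfl, if_neg (by omega),
            show p + (p + 1) = 2 * p + 1 by ring, pow_succ, pow_mul]
          push_cast
          norm_num
          ring
        · rw [if_neg (by omega), if_neg h1, if_neg (by omega),
            six_off Φ h0 p q (Or.inl (by omega))]
          ring
    rw [sum_congr rfl e, sum_sub_distrib, sum_sub_distrib]
    have hp7 : p < 7 := mem_range.mp hp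
    congr 1
    · congr 1
      · rw [sum_ite_eq' (range (6 + 1)) p, if_pos hp]
      · by_cases h6 : p + 1 ∈ range (6 + 1)
        · rw [sum_ite_eq' (range (6 + 1)) (p + 1), if_pos h6]
        · rw [sum_ite_eq' (range (6 + 1)) (p + 1), if_neg h6]
          have : p = 6 := by
            rw [mem_range] at h6
            omega
          subst this
          have z : ∀ Z : KRing 6, Z.h ((6 : ℕ) : ℤ) (((6 : ℕ) : ℤ) + 1) = 0 := fun Z =>
            Z.h_zero (by norm_num)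
          rw [z, z]
          simp
    · rcases Nat.eq_zero_or_pos p with h0' | h0'
      · subst h0'
        have z : ∀ Z : KRing 6, Z.h ((0 : ℕ) : ℤ) (((0 : ℕ) : ℤ) - 1) = 0 := fun Z =>
          Z.h_zero (by norm_num)
        rw [z, z]
        simp
      · obtain ⟨r, rfl⟩ : ∃ r, p = r + 1 := ⟨p - 1, by omega⟩
        simp only [Nat.add_right_cancel_iff]
        rw [sum_ite_eq' (range (6 + 1)) r, if_pos (mem_range.mpr (by omega))]
  have k1 := key fun p => (2 * p - (6 : ℕ)) ^ 2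
  have k2 := key fun _ => 1
  obtain ⟨g1, -, -, -, -, -, -, -, -, g22, -, g21, g33⟩ := six_rel Φ h0
  simp only [mul_one] at k2
  have e1 : moment X - moment Y = _ := k1
  have e2 : euler X - euler Y = _ := k2
  simp only [sum_range_succ, sum_range_zero, zero_add] at e1 e2
  push_cast at e1 e2
  norm_num at e1 e2
  have s44 : ∀ Z : KRing 6, Z.h 4 4 = Z.h 2 2 := fun Z =>
    hs Z 2 2 4 4 2 (by norm_num) (by norm_num) (by norm_num)
  have s55 : ∀ Z : KRing 6, Z.h 5 5 = Z.h 1 1 := fun Z =>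
    hs Z 1 1 5 5 4 (by norm_num) (by norm_num) (by norm_num)
  have s66 : ∀ Z : KRing 6, Z.h 6 6 = Z.h 0 0 := fun Z =>
    hs Z 0 0 6 6 6 (by norm_num) (by norm_num) (by norm_num)
  have s10 : ∀ Z : KRing 6, Z.h 0 1 = Z.h 1 0 := fun Z => Z.h_swap _ _
  have s21 : ∀ Z : KRing 6, Z.h 1 2 = Z.h 2 1 := fun Z => Z.h_swap _ _
  have s32 : ∀ Z : KRing 6, Z.h 2 3 = Z.h 3 2 := fun Z => Z.h_swap _ _
  have s43 : ∀ Z : KRing 6, Z.h 4 3 = Z.h 3 2 := fun Z =>
    hs Z 3 2 4 3 1 (by norm_num) (by norm_num) (by norm_num)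
  have s34 : ∀ Z : KRing 6, Z.h 3 4 = Z.h 3 2 := fun Z => (Z.h_swap _ _).trans (s43 Z)
  have s54 : ∀ Z : KRing 6, Z.h 5 4 = Z.h 2 1 := fun Z =>
    hs Z 2 1 5 4 3 (by norm_num) (by norm_num) (by norm_num)
  have s45 : ∀ Z : KRing 6, Z.h 4 5 = Z.h 2 1 := fun Z => (Z.h_swap _ _).trans (s54 Z)
  have s65 : ∀ Z : KRing 6, Z.h 6 5 = Z.h 1 0 := fun Z =>
    hs Z 1 0 6 5 5 (by norm_num) (by norm_num) (by norm_num)
  have s56 : ∀ Z : KRing 6, Z.h 5 6 = Z.h 1 0 := fun Z => (Z.h_swap _ _).trans (s65 Z)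
  have z1 : ∀ Z : KRing 6, Z.h 0 (-1) = 0 := fun Z => Z.h_zero (by omega)
  have z2 : ∀ Z : KRing 6, Z.h 6 7 = 0 := fun Z => Z.h_zero (by norm_num)
  simp only [s44, s55, s66, s10, s21, s32, s43, s34, s54, s45, s65, s56, z1, z2, X.h00, Y.h00]
    at e1 e2
  unfold LibgoberWood at hX hY
  push_cast at hX hY e1 e2
  omega

theorem six_all (Φ : FM X Y) (h0 : ∀ q : ℤ, X.h 0 q = Y.h 0 q) (C : ℤ)
    (hX : LibgoberWood X C) (hY : LibgoberWood Y C)
    (h : X.h 1 1 = Y.h 1 1 ∨ X.h 2 1 = Y.h 2 1) (p q : ℤ) : X.h p q = Y.h p q := by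
  have hd := six_diag Φ h0 C C hX hY
  obtain ⟨g1, g2, g3, g4, g5, g6, g31, g41, g51, g22, g42, g21, g33⟩ := six_rel Φ h0
  have h11 : X.h 1 1 = Y.h 1 1 := by omega
  have h21 : X.h 2 1 = Y.h 2 1 := by omega
  have h32 : X.h 3 2 = Y.h 3 2 := by omega
  have h33 : X.h 3 3 = Y.h 3 3 := by omega
  have h00 : X.h 0 0 = Y.h 0 0 := by rw [X.h00, Y.h00]
  rcases reduce (n := 6) p q with h | ⟨p', q', h1, h2, h3, h4, h5⟩
  · rw [h X, h Y]
  rw [h5 X, h5 Y]
  push_cast at h3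
  have hq2 : q' ≤ 3 := by omega
  have hp6 : p' ≤ 6 := by omega
  have hp0 : 0 ≤ p' := by omega
  clear h5 h4 hd
  interval_cases q' <;> interval_cases p' <;> first | assumption | omega

end Pool.Agent.X268.SC
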